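import Pool.Agent.H85.KS2.Targets
import Pool.Agent.H69.KS.RB

/-! # MP_ff41bc_an, board KS2, module RB2 -/

set_option autoImplicit false

open Finset

noncomputable section

open Pool.Agent.H98.KS Pool.Agent.H85.KS2
namespace Pool.Agent.H69.KS2

theorem ks2_RB2 (hLOC : T_LOC) (hNUM : T_NUM) (hZBK : T_ZBK) (hRC : T_RC) (hRN : T_RN) : T_RB2 := by
  intro k d M hk hd hM
  classical
  obtain ⟨-, -, n3, -, -, -, -, n8, n9, n10⟩ := hNUM k d hk hd
  set v : ℕ := (d - 1) / 4 with hvdef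
  have hv1 : 1 ≤ v := by omega
  have hkv : k ≤ 2 * v := by omega
  have hZ : ZB k v := hZBK k v hk n8
  obtain ⟨η, ε, hη, hη1, hε, hRN'⟩ := hRN k d v M hk hkv n9 n10 hM
  obtain ⟨C1, hC1, hRN1⟩ := hRN' (7 ^ d) (by positivity)
  obtain ⟨C2, hC2, hRC1⟩ := hRC k d v hv1 hZ ε hε
  refine ⟨η, hη, hη1, fun c0 hc0 => ?_⟩
  refine ⟨6 ^ d * (C2 * C1 * ((d : ℝ) + 1) / c0 ^ 2), by positivity, ?_⟩
  intro N L F X hN1 hL hLM h
  have hNpos : (0 : ℝ) < N := by linarith
  have hLr : (1 : ℝ) ≤ L := (Real.one_le_rpow hN1 (by positivity)).trans hL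
  have hLn : 1 ≤ L := by exact_mod_cast hLr
  have hLN : 0 < (L : ℝ) / N := div_pos (by linarith) hNpos
  have hNr : 0 < N ^ ((d : ℝ) - η) := Real.rpow_pos_of_pos hNpos _
  have hgoal : (X.card : ℝ) ≤
      6 ^ d * (C2 * C1 * ((d : ℝ) + 1) / c0 ^ 2 * N ^ ((d : ℝ) - η)) * F.card := by
    refine hLOC d L F X (C2 * C1 * ((d : ℝ) + 1) / c0 ^ 2 * N ^ ((d : ℝ) - η)) hLn
      (by positivity) (fun z => ?_)
    set Xz := X.filter (fun x => ∀ i, (L : ℤ) * z i ≤ x i ∧ x i < L * z i + L) with hXz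
    set Fz := F.filter (fun y => ∀ i, (L : ℤ) * z i - 2 * L ≤ y i ∧ y i ≤ L * z i + 3 * L) with hFz
    rcases Xz.eq_empty_or_nonempty with he | ⟨x₀, hx₀⟩
    · rw [he]
      simp only [card_empty, Nat.cast_zero]
      positivity
    set vv : Fin d → ℤ := fun i => (L : ℤ) * z i with hv
    have hcnt : ∀ x ∈ Xz, ∃ l, c0 * ((L : ℝ) / N) ^ (d - k) ≤ cnt k Fz x l := by
      intro x hx
      have hx' := mem_filter.1 hx
      obtain ⟨l, hl1, hl2, hl3⟩ := (h x hx'.1).2
      refine ⟨l, hl3.trans ?_⟩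
      rw [cnt, cnt]
      have hsub : F.filter (fun y => pw k (x - y) = l) ⊆
          Fz.filter (fun y => pw k (x - y) = l) := by
        intro y hy
        have hy' := mem_filter.1 hy
        rw [mem_filter, hFz, mem_filter]
        refine ⟨⟨hy'.1, fun i => ?_⟩, hy'.2⟩
        have h1 := Pool.Agent.H69.KS.coord_lt (by omega : 1 ≤ k) (x - y) hy'.2 hl2 i
        rw [Pi.sub_apply, abs_lt] at h1
        have h2 := hx'.2 i
        constructor <;> linarith [h1.1, h1.2, h2.1, h2.2]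
      exact_mod_cast card_le_card hsub
    have hFcard : (Fz.card : ℝ) ≤ 7 ^ d * ((L : ℝ) / N) ^ d := by
      have hx' := mem_filter.1 hx₀
      have hs := (h x₀ hx'.1).1 (3 * L)
      have hsub : Fz ⊆ F.filter (fun y => ∀ i, |y i - x₀ i| ≤ ((3 * L : ℕ) : ℤ)) := by
        intro y hy
        have hy' := mem_filter.1 hy
        rw [mem_filter]
        refine ⟨hy'.1, fun i => ?_⟩
        have h2 := hx'.2 i
        have h3 := hy'.2 i
        rw [abs_le]
        push_cast
        constructor <;> linarith [h2.1, h2.2, h3.1, h3.2]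
      have h1 : (Fz.card : ℝ) ≤
          ((F.filter (fun y => ∀ i, |y i - x₀ i| ≤ ((3 * L : ℕ) : ℤ))).card : ℝ) := by
        exact_mod_cast card_le_card hsub
      refine h1.trans (hs.trans ?_)
      rw [div_pow, ← mul_div_assoc, ← mul_pow, one_div, inv_mul_eq_div]
      push_cast
      gcongr
      linarith
    have hinj : Function.Injective (fun y : Fin d → ℤ => y - vv) := fun a b h => by
      simpa using h
    set T : ℝ := c0 * ((L : ℝ) / N) ^ (d - k) with hT
    have hT0 : 0 < T := by positivity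
    have hRC2 := hRC1 L (Fz.image (fun y => y - vv)) (Xz.image (fun y => y - vv)) T hLn hT0.le (by
        intro w hw
        obtain ⟨y, hy, rfl⟩ := mem_image.1 hw
        have hy' := (mem_filter.1 hy).2
        rw [bx, Fintype.mem_piFinset]
        intro i
        have := hy' i
        simp only [mem_Icc, Pi.sub_apply, hv]
        constructor <;> linarith [this.1, this.2]) (by
        intro w hw
        obtain ⟨x, hx, rfl⟩ := mem_image.1 hw
        have hx' := (mem_filter.1 hx).2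
        rw [cell, Fintype.mem_piFinset]
        intro i
        have := hx' i
        simp only [mem_Ico, Pi.sub_apply, hv]
        constructor <;> linarith [this.1, this.2]) (by
        intro w hw
        obtain ⟨x, hx, rfl⟩ := mem_image.1 hw
        obtain ⟨l, hl⟩ := hcnt x hx
        refine ⟨l, ?_⟩
        have e := Pool.Agent.H69.KS.cnt_shift k Fz x vv l
        have e' : cnt k (Fz.image (fun y => y - vv)) ((fun y => y - vv) x) l = cnt k Fz x l := e
        rw [e']
        exact hl)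
    rw [card_image_of_injective _ hinj, card_image_of_injective _ hinj] at hRC2
    have hsum : ∑ w ∈ Finset.range (d + 1),
        (min (Fz.card : ℝ) ((6 * (L : ℝ)) ^ w)) ^ (1 - 1 / (v : ℝ)) *
        (L : ℝ) ^ ((d : ℝ) + w / v - 2 * k * min 1 ((w : ℝ) / (4 * v)) + ε) ≤
        ((d : ℝ) + 1) * (C1 * (((L : ℝ) / N) ^ (d - k)) ^ 2 * N ^ ((d : ℝ) - η)) := by
      have h1 := Finset.sum_le_card_nsmul (Finset.range (d + 1))
        (fun w => (min (Fz.card : ℝ) ((6 * (L : ℝ)) ^ w)) ^ (1 - 1 / (v : ℝ)) *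
        (L : ℝ) ^ ((d : ℝ) + w / v - 2 * k * min 1 ((w : ℝ) / (4 * v)) + ε))
        (C1 * (((L : ℝ) / N) ^ (d - k)) ^ 2 * N ^ ((d : ℝ) - η)) (fun w hw => by
          exact hRN1 N L w Fz.card hN1 hL hLM (by
            have := Finset.mem_range.1 hw
            omega) (Nat.cast_nonneg _) hFcard)
      rw [Finset.card_range, nsmul_eq_mul] at h1
      push_cast at h1
      exact h1
    have hF0 : (0 : ℝ) ≤ Fz.card := Nat.cast_nonneg _
    have h2 : T ^ 2 * Xz.card ≤ C2 * Fz.card *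
        (((d : ℝ) + 1) * (C1 * (((L : ℝ) / N) ^ (d - k)) ^ 2 * N ^ ((d : ℝ) - η))) :=
      hRC2.trans (mul_le_mul_of_nonneg_left hsum (by positivity))
    have h3 : C2 * Fz.card *
        (((d : ℝ) + 1) * (C1 * (((L : ℝ) / N) ^ (d - k)) ^ 2 * N ^ ((d : ℝ) - η))) =
        T ^ 2 * (C2 * C1 * ((d : ℝ) + 1) / c0 ^ 2 * N ^ ((d : ℝ) - η) * Fz.card) := by
      rw [hT, mul_pow]
      field_simp
    rw [h3] at h2
    exact le_of_mul_le_mul_left h2 (by positivity)
  have e1 : 6 ^ d * (C2 * C1 * ((d : ℝ) + 1) / c0 ^ 2 * N ^ ((d : ℝ) - η)) * F.card =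
      6 ^ d * (C2 * C1 * ((d : ℝ) + 1) / c0 ^ 2) * N ^ ((d : ℝ) - η) * F.card := by ring
  rw [← e1]
  exact hgoal

end Pool.Agent.H69.KS2
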